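import Pool.Agent.Lib.MP_af28a5_co.Window

/-!
# Highly acyclic complexes without four-element interval partitions with subcomplex bottoms

The definitions `IsComplex`, `boundary`, `Acyclic`, `link`, `IsJAcyclic` and
`IsUnionOfIntervals` are in `Pool/Agent/Lib/MP_af28a5_co/Defs.lean`, the definition
`IsUnionWithComplexBottoms` in `Pool/Agent/Lib/MP_af28a5_co/Defs2.lean`, the definition
`IsShelling` in `Pool/Agent/Lib/MP_af28a5_co/Defs3.lean`.
-/

set_option autoImplicit false

namespace Pool.Agent.Results.MP_1ce213_co.HighlyAcyclic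

open Pool.Agent.Lib.MP_af28a5_co

universe u

/-- For every `j` there is a shellable simplicial complex `Δ` of dimension `j + 2` such that the
links of all faces with at most `j` elements (for `j ≥ 1` in particular `Δ` and its vertex links)
are acyclic over every field and `Δ` has a partition into intervals with `2 ^ (j + 1)` elements,
but no partition into four-element intervals with subcomplex bottoms. -/
theorem result (j : ℕ) :
    ∃ (n : ℕ) (Δ : Finset (Finset (Fin n))) (L : List (Finset (Fin n))),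
      IsComplex Δ ∧ IsShelling (j + 3) Δ L ∧
      (∀ (k : Type u) [Field k], IsJAcyclic k j Δ) ∧ IsUnionOfIntervals (j + 1) Δ ∧
      ¬ IsUnionWithComplexBottoms 2 Δ := by
  obtain ⟨n, Δ, ⟨h1, h2, h3, L, hL⟩, h4⟩ := exists_good j
  refine ⟨n, Δ, L, h1, hL, fun k _ F hF hc => acyclic_of_exp (h2 F hF hc), h3, ?_⟩
  rintro ⟨P, p1, p2, p3⟩
  obtain ⟨p, ⟨hp, hp1, _⟩, _⟩ := p2 ∅ h1.1
  have hp0 : p.1 = ∅ := Finset.subset_empty.mp hp1
  have h5 := small_of_emptyTriangles h1 h4 P (fun p hp => ⟨(p1 p hp).1, (p1 p hp).2.1⟩) p2 p3 p hp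
    hp0
  have h6 := (p1 p hp).2.2
  rw [hp0, Finset.sdiff_empty] at h6
  omega

end Pool.Agent.Results.MP_1ce213_co.HighlyAcyclic
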