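import Pool.Agent.Lib.MP_af28a5_co.Ball
import Pool.Agent.Lib.MP_1ce213_co.One

/-!
# A shellable ball without a partition with subcomplex bottoms

The definitions `IsComplex`, `boundary`, `Acyclic`, `link` and `IsUnionOfIntervals` are in
`Pool/Agent/Lib/MP_af28a5_co/Defs.lean`, the definition `IsUnionWithComplexBottoms` in
`Pool/Agent/Lib/MP_af28a5_co/Defs2.lean`, the definition `IsShelling` in
`Pool/Agent/Lib/MP_af28a5_co/Defs3.lean`.
-/

set_option autoImplicit false

namespace Pool.Agent.Results.MP_1ce213_co.ShellableBall

open Pool.Agent.Lib.MP_af28a5_co Pool.Agent.Lib.MP_1ce213_co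

universe u

/-- There is a three-dimensional simplicial complex `Δ` on at most nine vertices with a shelling
`L` of 18 tetrahedra, every triangle being contained in at most two of them (hence `Δ` is a
ball), such that `Δ` and its vertex links are acyclic over every field and `Δ` has a partition
into four-element intervals, but no such partition has subcomplex bottoms. -/
theorem result :
    ∃ (Δ : Finset (Finset (Fin 9))) (L : List (Finset (Fin 9))),
      IsComplex Δ ∧ IsShelling 4 Δ L ∧ L.length = 18 ∧
      (∀ F : Finset (Fin 9), F.card = 3 → (L.filter (fun T => F ⊆ T)).length ≤ 2) ∧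
      (∀ (k : Type u) [Field k], Acyclic k Δ ∧
        ∀ v : Fin 9, {v} ∈ Δ → Acyclic k (link Δ {v})) ∧
      IsUnionOfIntervals 2 Δ ∧ ¬ IsUnionWithComplexBottoms 2 Δ := by
  refine ⟨Ball.ball, Ball.facets, Ball.isComplex_ball, Ball.shelling_ball, ?_,
    fun F hF => Ball.ridge_ball F (by omega), ?_, Ball.union_ball,
    not_union_of_viol Ball.isComplex_ball Ball.viol_ball⟩
  · unfold Ball.facets
    rw [List.length_map, Ball.tets_length]
  · intro k _
    rw [← jAcyclic_one Ball.isComplex_ball.1]
    exact fun F hF hc => acyclic_of_exp (Ball.jexp_ball F hF hc)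

end Pool.Agent.Results.MP_1ce213_co.ShellableBall
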